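import Pool.Agent.H17.SQA.Stmts

/-! MP_27fe77, row ORB: few functions of the coordinates in `B` that give all conditions in the
direction of `B`. -/

set_option autoImplicit false

namespace Pool.SQA

open Finset

namespace ORB

variable {p m d : ℕ} {K : Type} [Field K] [Algebra (ZMod p) K]

/-- the action of `ZMod p` -/
def ac (p d : ℕ) [Algebra (ZMod p) K] (o : Finset (Fin m) → Fin m)
    (lam : Finset (Fin m) → K) (B : Finset (Fin m)) (t : ZMod p) (x : Fin m → K) : Fin m → K :=
  mv d o lam B (algebraMap (ZMod p) K t) x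

theorem el_ac (o : Finset (Fin m) → Fin m) (lam : Finset (Fin m) → K) (B : Finset (Fin m))
    (hB : B.card = d) (ho : o B ∈ B) (t : ZMod p) (x : Fin m → K) :
    el d o B (ac p d o lam B t x) = el d o B x := by
  have h1 : ∀ i ∈ B, ac p d o lam B t x i = x i + algebraMap (ZMod p) K t * lam B * el d o B x := by
    intro i hi
    simp only [ac, mv]
    rw [if_pos hi]
  have h2 : el d o B (ac p d o lam B t x) =
      ∑ i ∈ B, ac p d o lam B t x i - (d : K) * ac p d o lam B t x (o B) := rfl
  rw [h2, Finset.sum_congr rfl h1, h1 _ ho, Finset.sum_add_distrib, Finset.sum_const, hB,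
    nsmul_eq_mul]
  have h3 : el d o B x = ∑ i ∈ B, x i - (d : K) * x (o B) := rfl
  rw [h3]
  ring

theorem ac_zero (o : Finset (Fin m) → Fin m) (lam : Finset (Fin m) → K) (B : Finset (Fin m))
    (x : Fin m → K) : ac p d o lam B 0 x = x := by
  funext i
  simp only [ac, mv, map_zero, zero_mul, add_zero, ite_self]

theorem ac_add (o : Finset (Fin m) → Fin m) (lam : Finset (Fin m) → K) (B : Finset (Fin m))
    (hB : B.card = d) (ho : o B ∈ B) (t s : ZMod p) (x : Fin m → K) :
    ac p d o lam B t (ac p d o lam B s x) = ac p d o lam B (t + s) x := by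
  have h1 := el_ac o lam B hB ho s x
  funext i
  by_cases hi : i ∈ B
  · have h2 : ac p d o lam B t (ac p d o lam B s x) i = ac p d o lam B s x i +
        algebraMap (ZMod p) K t * lam B * el d o B (ac p d o lam B s x) := by
      rw [ac, mv]
      simp only [if_pos hi]
    have h3 : ac p d o lam B s x i = x i + algebraMap (ZMod p) K s * lam B * el d o B x := by
      rw [ac, mv]
      simp only [if_pos hi]
    have h4 : ac p d o lam B (t + s) x i =
        x i + algebraMap (ZMod p) K (t + s) * lam B * el d o B x := by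
      rw [ac, mv]
      simp only [if_pos hi]
    rw [h2, h1, h3, h4, map_add]
    ring
  · simp only [ac, mv, if_neg hi]

/-- the functional which is one at `v` -/
theorem exists_fun [Fact p.Prime] (v : K) (hv : v ≠ 0) : ∃ φ : K →ₗ[ZMod p] ZMod p, φ v = 1 := by
  obtain ⟨φ, hφ⟩ : ∃ φ : Module.Dual (ZMod p) K, φ v ≠ 0 := by
    by_contra h
    push Not at h
    exact hv ((Module.forall_dual_apply_eq_zero_iff (ZMod p) v).mp h)
  refine ⟨(φ v)⁻¹ • φ, ?_⟩
  rw [LinearMap.smul_apply, smul_eq_mul, inv_mul_cancel₀ hφ]

/-- the phase -/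
theorem exists_phase [Fact p.Prime] (o : Finset (Fin m) → Fin m) (lam : Finset (Fin m) → K)
    (B : Finset (Fin m)) (hB : B.card = d) (ho : o B ∈ B) (hl : lam B ≠ 0) :
    ∃ ph : (Fin m → K) → ZMod p, ∀ (t : ZMod p) (x : Fin m → K), el d o B x ≠ 0 →
      ph (ac p d o lam B t x) = ph x + t := by
  classical
  have h1 : ∀ c : K, ∃ φ : K →ₗ[ZMod p] ZMod p, c ≠ 0 → φ (lam B * c) = 1 := by
    intro c
    by_cases hc : c = 0
    · exact ⟨0, fun h => absurd hc h⟩
    · obtain ⟨φ, hφ⟩ := exists_fun (p := p) (lam B * c) (mul_ne_zero hl hc)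
      exact ⟨φ, fun _ => hφ⟩
  choose φ hφ using h1
  refine ⟨fun x => φ (el d o B x) (x (o B)), ?_⟩
  intro t x hx
  have h2 : ac p d o lam B t x (o B) =
      x (o B) + algebraMap (ZMod p) K t * lam B * el d o B x := by
    rw [ac, mv]
    simp only [if_pos ho]
  have h3 : algebraMap (ZMod p) K t * lam B * el d o B x = t • (lam B * el d o B x) := by
    rw [Algebra.smul_def, mul_assoc]
  simp only [el_ac o lam B hB ho t x]
  rw [h2, h3, map_add, map_smul, hφ _ hx, smul_eq_mul, mul_one]

variable [Fintype K] [DecidableEq K]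

theorem mem_sp (B : Finset (Fin m)) (x : Fin m → K) : x ∈ sp K B ↔ ∀ i, i ∉ B → x i = 0 := by
  simp [sp]

theorem ac_mem (o : Finset (Fin m) → Fin m) (lam : Finset (Fin m) → K) (B : Finset (Fin m))
    (t : ZMod p) (x : Fin m → K) (hx : x ∈ sp K B) : ac p d o lam B t x ∈ sp K B := by
  rw [mem_sp] at hx ⊢
  intro i hi
  rw [ac, mv]
  simp only [if_neg hi]
  exact hx i hi

theorem card_sp_le (B : Finset (Fin m)) (hB : B.card = d) :
    (sp K B).card ≤ Fintype.card K ^ d := by
  have h1 : (sp K B).card ≤ (univ : Finset (B → K)).card := by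
    apply Finset.card_le_card_of_injOn (fun x (i : B) => x i.1)
    · intro x _
      exact Finset.mem_coe.mpr (Finset.mem_univ _)
    · intro x hx y hy hxy
      funext i
      by_cases hi : i ∈ B
      · exact congrFun hxy ⟨i, hi⟩
      · rw [(mem_sp B x).mp hx i hi, (mem_sp B y).mp hy i hi]
  rw [Finset.card_univ, Fintype.card_fun, Fintype.card_coe, hB] at h1
  exact h1

theorem card_zero (o : Finset (Fin m) → Fin m) (B : Finset (Fin m)) (hd : 2 ≤ d)
    (hB : B.card = d) :
    ((sp K B).filter fun x => el d o B x = 0).card ≤ Fintype.card K ^ (d - 1) := by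
  obtain ⟨i, hi, hio⟩ : ∃ i ∈ B, i ≠ o B := by
    have h1 : 1 < B.card := by omega
    obtain ⟨i, hi, hne⟩ := Finset.exists_mem_ne h1 (o B)
    exact ⟨i, hi, hne⟩
  set v : Fin m → K := Pi.single i 1 with hv
  have hadd : ∀ (x : Fin m → K) (c : K), el d o B (x + c • v) = el d o B x + c := by
    intro x c
    have h1 : ∑ k ∈ B, (x + c • v) k = ∑ k ∈ B, x k + c := by
      rw [show (∑ k ∈ B, (x + c • v) k) = ∑ k ∈ B, (x k + c * v k) from rfl,
        Finset.sum_add_distrib, ← Finset.mul_sum]
      have h2 : ∑ k ∈ B, v k = 1 := by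
        rw [hv, Finset.sum_pi_single', if_pos hi]
      rw [h2, mul_one]
    have h3 : (x + c • v) (o B) = x (o B) := by
      have h4 : v (o B) = 0 := by
        rw [hv]
        exact Pi.single_eq_of_ne hio.symm 1
      show x (o B) + c * v (o B) = x (o B)
      rw [h4, mul_zero, add_zero]
    show ∑ k ∈ B, (x + c • v) k - (d : K) * (x + c • v) (o B) =
      (∑ k ∈ B, x k - (d : K) * x (o B)) + c
    rw [h1, h3]
    ring
  have h5 : (((sp K B).filter fun x => el d o B x = 0) ×ˢ (univ : Finset K)).card ≤
      (sp K B).card := by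
    apply Finset.card_le_card_of_injOn (fun q => q.1 + q.2 • v)
    · intro q hq
      have hq1 := (Finset.mem_filter.mp (Finset.mem_product.mp hq).1).1
      rw [Finset.mem_coe, mem_sp]
      intro k hk
      have h6 : v k = 0 := by
        have hki : k ≠ i := by
          intro h
          rw [h] at hk
          exact hk hi
        rw [hv]
        exact Pi.single_eq_of_ne hki 1
      show q.1 k + q.2 * v k = 0
      rw [h6, mul_zero, add_zero]
      exact (mem_sp B q.1).mp hq1 k hk
    · rintro ⟨x, c⟩ hx ⟨y, c'⟩ hy hxy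
      have hx1 : el d o B x = 0 := (Finset.mem_filter.mp (Finset.mem_product.mp hx).1).2
      have hy1 : el d o B y = 0 := (Finset.mem_filter.mp (Finset.mem_product.mp hy).1).2
      have hxy' : x + c • v = y + c' • v := hxy
      have h7 : c = c' := by
        have h8 := congrArg (el d o B) hxy'
        rw [hadd, hadd, hx1, hy1, zero_add, zero_add] at h8
        exact h8
      subst h7
      rw [add_right_cancel hxy']
  rw [Finset.card_product, Finset.card_univ] at h5
  have h6 := h5.trans (card_sp_le (K := K) B hB)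
  have h7 : Fintype.card K ^ d = Fintype.card K ^ (d - 1) * Fintype.card K := by
    rw [← pow_succ]
    congr 1
    omega
  rw [h7] at h6
  exact Nat.le_of_mul_le_mul_right h6 Fintype.card_pos

end ORB

open ORB in
theorem t_orb : ORBStmt := by
  classical
  intro p m d e _ K _ _ _ _ o lam B χ hd hB ho hl hχ0 hχ
  obtain ⟨ph, hph⟩ := exists_phase (p := p) o lam B hB ho hl
  set T : Finset (Fin m → K) := (sp K B).filter fun x => el d o B x ≠ 0 ∧ ph x = 0 with hT
  set Z : Finset (Fin m → K) := (sp K B).filter fun x => el d o B x = 0 with hZ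
  have hTc : p * T.card ≤ Fintype.card K ^ d := by
    have h1 : (T ×ˢ (univ : Finset (ZMod p))).card ≤ (sp K B).card := by
      apply Finset.card_le_card_of_injOn (fun q => ac p d o lam B q.2 q.1)
      · intro q hq
        have hq1 := (Finset.mem_filter.mp (Finset.mem_product.mp hq).1).1
        exact ac_mem o lam B q.2 q.1 hq1
      · rintro ⟨x, t⟩ hx ⟨y, s⟩ hy hxy
        have hx1 := (Finset.mem_filter.mp (Finset.mem_product.mp hx).1).2
        have hy1 := (Finset.mem_filter.mp (Finset.mem_product.mp hy).1).2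
        have hxy' : ac p d o lam B t x = ac p d o lam B s y := hxy
        have h2 : t = s := by
          have h3 := congrArg ph hxy'
          rw [hph t x hx1.1, hph s y hy1.1] at h3
          have h4 : ph x = 0 := hx1.2
          have h5 : ph y = 0 := hy1.2
          rwa [h4, h5, zero_add, zero_add] at h3
        subst h2
        have h6 := congrArg (ac p d o lam B (-t)) hxy'
        rw [ac_add o lam B hB ho, ac_add o lam B hB ho, neg_add_cancel, ac_zero, ac_zero] at h6
        rw [h6]
    rw [Finset.card_product, Finset.card_univ, ZMod.card] at h1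
    rw [mul_comm]
    exact h1.trans (card_sp_le (K := K) B hB)
  have hZc : Z.card ≤ Fintype.card K ^ (d - 1) := card_zero o B hd hB
  let ι : Type := (T × Fin e) ⊕ Z
  let pr : (Fin m → K) → (Fin m → K) := fun y i => if i ∈ B then y i else 0
  let G : ι → (Fin m → K) → ℂ := fun i y => match i with
    | Sum.inl q => ∑ t : ZMod p, if pr y = ac p d o lam B t q.1.1 then χ q.2 t else 0
    | Sum.inr q => if pr y = q.1 then 1 else 0
  have hprx : ∀ x ∈ sp K B, pr x = x := by
    intro x hx
    funext i
    by_cases hi : i ∈ B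
    · simp only [pr, if_pos hi]
    · simp only [pr, if_neg hi]
      exact ((mem_sp B x).mp hx i hi).symm
  have hι : Fintype.card ι = T.card * e + Z.card := by
    simp only [ι, Fintype.card_sum, Fintype.card_prod, Fintype.card_coe, Fintype.card_fin]
  let eq := Fintype.equivFin ι
  refine ⟨Fintype.card ι, fun j => G (eq.symm j), ?_, ?_, ?_⟩
  · rw [hι]
    calc p * (T.card * e + Z.card) = e * (p * T.card) + p * Z.card := by ring
      _ ≤ e * Fintype.card K ^ d + p * Fintype.card K ^ (d - 1) :=
        Nat.add_le_add (Nat.mul_le_mul_left _ hTc) (Nat.mul_le_mul_left _ hZc)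
  · intro j x y hxy
    have h1 : pr x = pr y := by
      funext i
      by_cases hi : i ∈ B
      · simp only [pr, if_pos hi]
        exact hxy i (Finset.mem_coe.mpr hi)
      · simp only [pr, if_neg hi]
    simp only [G]
    rw [h1]
  · intro ξ z hz hG
    have hG' : ∀ i : ι, ∑ x ∈ sp K B, G i x * ξ (x + z) = 0 := by
      intro i
      have h1 := hG (eq i)
      simp only [Equiv.symm_apply_apply] at h1
      exact h1
    have hZ0 : ∀ x ∈ sp K B, el d o B x = 0 → ξ (x + z) = 0 := by
      intro x hx hel
      have hxZ : x ∈ Z := Finset.mem_filter.mpr ⟨hx, hel⟩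
      have h1 := hG' (Sum.inr ⟨x, hxZ⟩)
      have h2 : ∑ y ∈ sp K B, G (Sum.inr ⟨x, hxZ⟩) y * ξ (y + z) =
          ∑ y ∈ sp K B, if y = x then ξ (y + z) else 0 := by
        apply Finset.sum_congr rfl
        intro y hy
        simp only [G, hprx y hy, ite_mul, one_mul, zero_mul]
      rw [h2, Finset.sum_ite_eq', if_pos hx] at h1
      exact h1
    have hT0 : ∀ x ∈ T, ∀ j, ∑ t : ZMod p, χ j t * ξ (ac p d o lam B t x + z) = 0 := by
      intro x hx j
      have h1 := hG' (Sum.inl (⟨x, hx⟩, j))
      have h2 : ∑ y ∈ sp K B, G (Sum.inl (⟨x, hx⟩, j)) y * ξ (y + z) =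
          ∑ t : ZMod p, χ j t * ξ (ac p d o lam B t x + z) := by
        have h3 : ∀ y ∈ sp K B, G (Sum.inl (⟨x, hx⟩, j)) y * ξ (y + z) =
            ∑ t : ZMod p, if y = ac p d o lam B t x then χ j t * ξ (y + z) else 0 := by
          intro y hy
          simp only [G, hprx y hy, Finset.sum_mul, ite_mul, zero_mul]
        rw [Finset.sum_congr rfl h3, Finset.sum_comm]
        apply Finset.sum_congr rfl
        intro t _
        rw [Finset.sum_ite_eq', if_pos (ac_mem o lam B t x (Finset.mem_filter.mp hx).1)]
      rw [h2] at h1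
      exact h1
    intro x hx
    refine ⟨hZ0 x hx, ?_⟩
    intro j
    by_cases hel : el d o B x = 0
    · apply Finset.sum_eq_zero
      intro t _
      have h1 : mv d o lam B (algebraMap (ZMod p) K t) x = x := by
        funext i
        simp only [mv, hel, mul_zero, add_zero, ite_self]
      rw [h1, hZ0 x hx hel, mul_zero]
    · set s := ph x with hs
      set x0 := ac p d o lam B (-s) x with hx0
      have h1 : x0 ∈ T := by
        rw [hT, Finset.mem_filter]
        refine ⟨ac_mem o lam B _ x hx, ?_, ?_⟩
        · rw [hx0, el_ac o lam B hB ho]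
          exact hel
        · rw [hx0, hph _ x hel, ← hs, add_neg_cancel]
      have h2 : x = ac p d o lam B s x0 := by
        rw [hx0, ac_add o lam B hB ho, add_neg_cancel, ac_zero]
      have h3 : ∀ t : ZMod p, χ j t * ξ (mv d o lam B (algebraMap (ZMod p) K t) x + z) =
          χ j (-s) * (χ j (t + s) * ξ (ac p d o lam B (t + s) x0 + z)) := by
        intro t
        have h4 : mv d o lam B (algebraMap (ZMod p) K t) x = ac p d o lam B (t + s) x0 := by
          rw [← ac_add o lam B hB ho, ← h2]
          rfl
        have h5 : χ j t = χ j (-s) * χ j (t + s) := by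
          rw [← hχ]
          congr 1
          ring
        rw [h4, h5, mul_assoc]
      rw [Finset.sum_congr rfl fun t _ => h3 t, ← Finset.mul_sum,
        Fintype.sum_equiv (Equiv.addRight s)
          (fun t => χ j (t + s) * ξ (ac p d o lam B (t + s) x0 + z))
          (fun u => χ j u * ξ (ac p d o lam B u x0 + z)) (fun t => rfl), hT0 x0 h1 j, mul_zero]

end Pool.SQA
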